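import Mathlib
set_option autoImplicit false

namespace Pool.Agent.Results.MP_af7016_co.Half
open Filter Topology Finset

/-- `F` is the `k`-term geometric progression `{a, a r, ..., a r ^ (k - 1)}` with `a` a positive
integer, all terms natural numbers and rational ratio `r > 1`; when `int = true` the ratio is
required to be an integer (so `r ≥ 2`). -/
def IsGP (int : Bool) (k : ℕ) (F : Finset ℕ) : Prop :=
  ∃ (a : ℕ) (r : ℚ), 0 < a ∧ 1 < r ∧ (int = true → ∃ s : ℕ, r = s) ∧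
    (∀ i < k, ∃ n : ℕ, (n : ℚ) = a * r ^ i) ∧
    ∀ n : ℕ, n ∈ F ↔ ∃ i < k, (n : ℚ) = a * r ^ i

/-- `𝓕` is a `k`-GP cover of `[N]`. -/
def IsCover (int : Bool) (k N : ℕ) (𝓕 : Finset (Finset ℕ)) : Prop :=
  (∀ F ∈ 𝓕, IsGP int k F) ∧ ∀ n ∈ Icc 1 N, ∃ F ∈ 𝓕, n ∈ F

/-- The least size of a `k`-GP cover of `[N]`. -/
noncomputable def m (int : Bool) (k N : ℕ) : ℕ :=
  sInf {c | ∃ 𝓕, IsCover int k N 𝓕 ∧ 𝓕.card = c}

noncomputable def lowerG (int : Bool) (k : ℕ) : ℝ :=
  liminf (fun N : ℕ => (m int k N : ℝ) / N) atTop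

noncomputable def upperG (int : Bool) (k : ℕ) : ℝ :=
  limsup (fun N : ℕ => (m int k N : ℝ) / N) atTop

def two (k a : ℕ) : Finset ℕ := (range k).image fun i => a * 2 ^ i

theorem two_gp (int : Bool) (k a : ℕ) (ha : 0 < a) : IsGP int k (two k a) := by
  refine ⟨a, 2, ha, by norm_num, fun _ => ⟨2, by norm_num⟩, fun i _ => ⟨a * 2 ^ i, by push_cast; ring⟩,
    fun n => ?_⟩
  simp only [two, mem_image, mem_range]
  constructor
  · rintro ⟨i, hi, rfl⟩
    exact ⟨i, hi, by push_cast; ring⟩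
  · rintro ⟨i, hi, h⟩
    refine ⟨i, hi, ?_⟩
    exact_mod_cast h.symm

def starts (k N : ℕ) : Finset ℕ := (Icc 1 N).filter fun a => ¬ 2 ∣ a ∨ 2 ^ k ∣ a

theorem cover (int : Bool) (k N : ℕ) (hk : 0 < k) :
    IsCover int k N ((starts k N).image (two k)) := by
  constructor
  · intro F hF
    obtain ⟨a, ha, rfl⟩ := mem_image.1 hF
    exact two_gp int k a (mem_Icc.1 (mem_filter.1 ha).1).1
  · intro n hn
    have hn1 := mem_Icc.1 hn
    obtain ⟨v, b, hb, rfl⟩ := Nat.exists_eq_two_pow_mul_odd (n := n) (by omega)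
    have hv : v = k * (v / k) + v % k := (Nat.div_add_mod v k).symm
    have he : 2 ^ v * b = (2 ^ (k * (v / k)) * b) * 2 ^ (v % k) := by
      conv_lhs => rw [hv]
      ring
    have hb0 : 0 < b := hb.pos
    refine ⟨two k (2 ^ (k * (v / k)) * b), mem_image.2 ⟨_, mem_filter.2 ⟨mem_Icc.2 ⟨?_, ?_⟩, ?_⟩, rfl⟩, ?_⟩
    · exact Nat.succ_le_of_lt (by positivity)
    · refine le_trans ?_ hn1.2
      rw [he]
      exact Nat.le_mul_of_pos_right _ (by positivity)
    · rcases Nat.eq_zero_or_pos (v / k) with h0 | h0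
      · left
        rw [h0]
        simpa using hb.not_two_dvd_nat
      · right
        exact Dvd.dvd.mul_right (pow_dvd_pow 2 (Nat.le_mul_of_pos_right _ h0)) _
    · exact mem_image.2 ⟨v % k, mem_range.2 (Nat.mod_lt _ hk), he.symm⟩

theorem card_mult (d N : ℕ) : ((Icc 1 N).filter fun a => d ∣ a).card = N / d := by
  rw [← Nat.Ioc_filter_dvd_card_eq_div N d]
  rfl

theorem upper (int : Bool) (k N : ℕ) (hk : 0 < k) :
    (m int k N : ℝ) ≤ N / 2 + 1 + N / 2 ^ k := by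
  have h0 : m int k N ≤ ((starts k N).image (two k)).card :=
    Nat.sInf_le ⟨_, cover int k N hk, rfl⟩
  have h1 : m int k N ≤ (starts k N).card := h0.trans card_image_le
  have h2 : (starts k N).card ≤ ((Icc 1 N).filter fun a => ¬ 2 ∣ a).card + N / 2 ^ k := by
    rw [← card_mult, starts, filter_or]
    exact card_union_le _ _
  have h3 := card_filter_add_card_filter_not (s := Icc 1 N) (fun a => 2 ∣ a)
  rw [card_mult, Nat.card_Icc] at h3
  have h4 : 2 * m int k N ≤ N + 1 + 2 * (N / 2 ^ k) := by omega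
  have h5 : ((N / 2 ^ k : ℕ) : ℝ) ≤ N / 2 ^ k := by
    have := Nat.cast_div_le (α := ℝ) (m := N) (n := 2 ^ k)
    simpa using this
  have h6 : (2 : ℝ) * m int k N ≤ N + 1 + 2 * ((N / 2 ^ k : ℕ) : ℝ) := by exact_mod_cast h4
  linarith

/-- numbers in a progression with non-integral ratio are divisible by a high power. -/
theorem nonint {k j a : ℕ} {r : ℚ} (hj : 2 * j + 1 ≤ k) (hr : 1 < r) (hd : r.den ≠ 1)
    (h : ∀ i < k, ∃ n : ℕ, (n : ℚ) = a * r ^ i) {n i : ℕ} (hi : i < k)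
    (hn : (n : ℚ) = a * r ^ i) : ∃ d, 2 ≤ d ∧ d ^ j ∣ n := by
  obtain ⟨p, hp⟩ : ∃ p : ℕ, r.num = p := ⟨r.num.natAbs, by
    have : 0 ≤ r.num := Rat.num_nonneg.2 (by linarith)
    omega⟩
  set q := r.den with hq
  have hq0 : 0 < q := r.den_pos
  have hrq : r = (p : ℚ) / q := by
    have := (Rat.num_div_den r).symm
    rw [hp] at this
    simpa using this
  have hcop : Nat.Coprime p q := by
    have := r.reduced
    rw [hp] at this
    simpa using this
  have hq0' : (0 : ℚ) < q := by exact_mod_cast hq0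
  have hpq : q < p := by
    rw [hrq, lt_div_iff₀ hq0'] at hr
    exact_mod_cast (by simpa using hr : (q : ℚ) < p)
  have key : ∀ {n i : ℕ}, (n : ℚ) = a * r ^ i → n * q ^ i = a * p ^ i := by
    intro n i hn
    rw [hrq, div_pow] at hn
    have : (n : ℚ) * q ^ i = a * p ^ i := by
      rw [hn]; field_simp
    exact_mod_cast this
  by_cases hij : j ≤ i
  · refine ⟨p, by omega, (pow_dvd_pow p hij).trans ?_⟩
    have h1 : p ^ i ∣ n * q ^ i := by rw [key hn]; exact Dvd.intro_left _ rfl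
    exact (Nat.Coprime.pow i i hcop).dvd_of_dvd_mul_right h1
  · refine ⟨q, by omega, ?_⟩
    obtain ⟨n', hn'⟩ := h (i + j) (by omega)
    have h1 : n' * q ^ j = n * p ^ j := by
      have e1 := key hn'
      have e2 := key hn
      have : n' * q ^ j * q ^ i = n * p ^ j * q ^ i := by
        calc n' * q ^ j * q ^ i = n' * q ^ (i + j) := by ring
          _ = a * p ^ i * p ^ j := by rw [e1]; ring
          _ = n * p ^ j * q ^ i := by rw [← e2]; ring
      exact Nat.eq_of_mul_eq_mul_right (by positivity) this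
    have h2 : q ^ j ∣ n * p ^ j := by rw [← h1]; exact Dvd.intro_left _ rfl
    exact (Nat.Coprime.pow j j hcop.symm).dvd_of_dvd_mul_right h2

theorem sum_sq (N : ℕ) : ∑ d ∈ Icc 2 N, (1 : ℝ) / d ^ 2 ≤ 1 - 1 / (max N 1 : ℕ) := by
  induction N with
  | zero => simp
  | succ N ih =>
    rcases Nat.eq_zero_or_pos N with rfl | hN
    · simp
    · rw [sum_Icc_succ_top (by omega)]
      rw [max_eq_left hN] at ih
      rw [max_eq_left (by omega)]
      have hN' : (0 : ℝ) < N := by exact_mod_cast hN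
      have : (1 : ℝ) / ((N + 1 : ℕ) : ℝ) ^ 2 ≤ 1 / N - 1 / ((N + 1 : ℕ) : ℝ) := by
        push_cast
        rw [div_sub_div _ _ (by positivity) (by positivity), div_le_div_iff₀ (by positivity) (by positivity)]
        nlinarith
      linarith

open Classical in
theorem bad_card (N j : ℕ) :
    (((Icc 1 N).filter fun n => ∃ d, 2 ≤ d ∧ d ^ (j + 2) ∣ n).card : ℝ) ≤ N / 2 ^ j := by
  have h1 : ((Icc 1 N).filter fun n => ∃ d, 2 ≤ d ∧ d ^ (j + 2) ∣ n) ⊆
      (Icc 2 N).biUnion fun d => (Icc 1 N).filter fun n => d ^ (j + 2) ∣ n := by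
    intro n hn
    obtain ⟨hn1, d, hd, hdn⟩ := mem_filter.1 hn
    have hn2 := mem_Icc.1 hn1
    refine mem_biUnion.2 ⟨d, mem_Icc.2 ⟨hd, ?_⟩, mem_filter.2 ⟨hn1, hdn⟩⟩
    exact (Nat.le_of_dvd (by omega) ((dvd_pow_self d (by omega)).trans hdn)).trans hn2.2
  have h2 := (card_le_card h1).trans card_biUnion_le
  have h3 : (((Icc 1 N).filter fun n => ∃ d, 2 ≤ d ∧ d ^ (j + 2) ∣ n).card : ℝ) ≤
      ∑ d ∈ Icc 2 N, ((N / d ^ (j + 2) : ℕ) : ℝ) := by
    simp only [card_mult] at h2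
    exact_mod_cast h2
  refine h3.trans ?_
  have h4 : ∀ d ∈ Icc 2 N, ((N / d ^ (j + 2) : ℕ) : ℝ) ≤ N / 2 ^ j * (1 / d ^ 2) := by
    intro d hd
    have hd2 : (2 : ℝ) ≤ d := by exact_mod_cast (mem_Icc.1 hd).1
    have := Nat.cast_div_le (α := ℝ) (m := N) (n := d ^ (j + 2))
    refine this.trans ?_
    push_cast
    rw [div_mul_div_comm, mul_one, pow_add]
    have : (2 : ℝ) ^ j ≤ d ^ j := pow_le_pow_left₀ (by norm_num) hd2 j
    gcongr
  refine (sum_le_sum h4).trans ?_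
  rw [← mul_sum]
  have h5 := sum_sq N
  have h6 : (0 : ℝ) ≤ 1 / (max N 1 : ℕ) := by positivity
  have h7 : (0 : ℝ) ≤ N / 2 ^ j := by positivity
  nlinarith

open Classical in
theorem lower (int : Bool) (k N j : ℕ) (hj : 2 * (j + 2) + 1 ≤ k) :
    (N : ℝ) / 2 - N / 2 ^ j ≤ m int k N := by
  have hne : {c | ∃ 𝓕, IsCover int k N 𝓕 ∧ 𝓕.card = c}.Nonempty :=
    ⟨_, _, cover int k N (by omega), rfl⟩
  obtain ⟨𝓕, ⟨hG, hC⟩, hc⟩ := Nat.sInf_mem hne
  have hm : m int k N = 𝓕.card := hc.symm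
  set B := (Icc 1 N).filter fun n => ∃ d, 2 ≤ d ∧ d ^ (j + 2) ∣ n with hB
  set G := Ioc (N / 2) N \ B with hGd
  have hmem : ∀ n ∈ G, n ∈ Icc 1 N ∧ N < 2 * n ∧ ¬ ∃ d, 2 ≤ d ∧ d ^ (j + 2) ∣ n := by
    intro n hn
    obtain ⟨h1, h2⟩ := mem_sdiff.1 hn
    have h1' := mem_Ioc.1 h1
    have h3 : n ∈ Icc 1 N := mem_Icc.2 ⟨by omega, h1'.2⟩
    exact ⟨h3, by omega, fun h => h2 (mem_filter.2 ⟨h3, h⟩)⟩
  choose! f hf hf' using hC
  have hinj : Set.InjOn f G := by
    have aux : ∀ x ∈ G, ∀ y ∈ G, f x = f y → x < y → False := by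
      intro x hx y hy hxy hlt
      obtain ⟨hx1, hx2, hx3⟩ := hmem x hx
      obtain ⟨hy1, -, -⟩ := hmem y hy
      obtain ⟨a, r, ha, hr, -, hall, hiff⟩ := hG _ (hf x hx1)
      obtain ⟨i, hi, hxi⟩ := (hiff x).1 (hf' x hx1)
      obtain ⟨l, -, hyl⟩ := (hiff y).1 (hxy ▸ hf' y hy1)
      by_cases hd : r.den = 1
      · have hr2 : (2 : ℚ) ≤ r := by
          have h1 : (r.num : ℚ) = r := (Rat.den_eq_one_iff r).1 hd
          have h2 : (1 : ℤ) < r.num := by exact_mod_cast (h1 ▸ hr : (1 : ℚ) < r.num)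
          rw [← h1]
          exact_mod_cast h2
        have ha' : (0 : ℚ) < a := by exact_mod_cast ha
        have hlt' : (x : ℚ) < y := by exact_mod_cast hlt
        have hil : i < l := by
          rw [hxi, hyl] at hlt'
          exact (pow_lt_pow_iff_right₀ hr).1 (lt_of_mul_lt_mul_left hlt' ha'.le)
        have h3 : r ^ (i + 1) ≤ r ^ l := pow_le_pow_right₀ hr.le hil
        have h4 : (0 : ℚ) < r ^ i := by positivity
        have h5 : (2 : ℚ) * x ≤ y := by
          rw [hxi, hyl]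
          rw [pow_succ] at h3
          nlinarith [mul_le_mul_of_nonneg_left hr2 h4.le]
        have h6 : 2 * x ≤ y := by exact_mod_cast h5
        have := (mem_Icc.1 hy1).2
        omega
      · exact hx3 (nonint hj hr hd hall hi hxi)
    intro x hx y hy hxy
    rcases lt_trichotomy x y with h | h | h
    · exact (aux x hx y hy hxy h).elim
    · exact h
    · exact (aux y hy x hx hxy.symm h).elim
  have h1 : G.card ≤ 𝓕.card :=
    card_le_card_of_injOn f (fun x hx => hf x (hmem x hx).1) hinj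
  have h2 : (Ioc (N / 2) N).card ≤ G.card + B.card := by
    rw [hGd]; exact card_le_card_sdiff_add_card
  rw [Nat.card_Ioc] at h2
  have h3 : N ≤ 2 * (𝓕.card + B.card) := by omega
  have h4 : (N : ℝ) ≤ 2 * (𝓕.card + B.card) := by exact_mod_cast h3
  have h5 := bad_card N j
  rw [hm]
  linarith

theorem bounds (int : Bool) (k j : ℕ) (hj : 2 * (j + 2) + 1 ≤ k) :
    1 / 2 - 1 / 2 ^ j ≤ lowerG int k ∧ lowerG int k ≤ upperG int k ∧
      upperG int k ≤ 1 / 2 + 2 / 2 ^ j := by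
  have hlo : ∀ᶠ N : ℕ in atTop, (1 : ℝ) / 2 - 1 / 2 ^ j ≤ (m int k N : ℝ) / N := by
    filter_upwards [eventually_gt_atTop 0] with N hN
    have hN' : (0 : ℝ) < N := by exact_mod_cast hN
    rw [le_div_iff₀ hN']
    have := lower int k N j hj
    calc ((1 : ℝ) / 2 - 1 / 2 ^ j) * N = N / 2 - N / 2 ^ j := by ring
      _ ≤ _ := this
  have hhi : ∀ᶠ N : ℕ in atTop, (m int k N : ℝ) / N ≤ 1 / 2 + 2 / 2 ^ j := by
    filter_upwards [eventually_ge_atTop (2 ^ j)] with N hN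
    have hN1 : (2 : ℝ) ^ j ≤ N := by exact_mod_cast hN
    have hp : (0 : ℝ) < 2 ^ j := by positivity
    have hN' : (0 : ℝ) < N := by linarith
    rw [div_le_iff₀ hN']
    have h1 := upper int k N (by omega)
    have h2 : (N : ℝ) / 2 ^ k ≤ N / 2 ^ j := by
      have : (2 : ℝ) ^ j ≤ 2 ^ k := pow_le_pow_right₀ (by norm_num) (by omega)
      gcongr
    have h3 : (1 : ℝ) ≤ N / 2 ^ j := by rw [le_div_iff₀ hp]; linarith
    calc (m int k N : ℝ) ≤ N / 2 + N / 2 ^ j + N / 2 ^ j := by linarith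
      _ = _ := by ring
  have hb1 : IsBoundedUnder (· ≤ ·) atTop (fun N : ℕ => (m int k N : ℝ) / N) := ⟨_, hhi⟩
  have hb2 : IsBoundedUnder (· ≥ ·) atTop (fun N : ℕ => (m int k N : ℝ) / N) := ⟨_, hlo⟩
  exact ⟨le_liminf_of_le hb1.isCoboundedUnder_ge hlo, liminf_le_limsup hb1 hb2,
    limsup_le_of_le hb2.isCoboundedUnder_le hhi⟩

theorem result (int : Bool) :
    Tendsto (lowerG int) atTop (𝓝 (1 / 2)) ∧ Tendsto (upperG int) atTop (𝓝 (1 / 2)) := by
  have hj : Tendsto (fun k : ℕ => (k - 5) / 2) atTop atTop := by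
    refine tendsto_atTop.2 fun b => ?_
    filter_upwards [eventually_ge_atTop (2 * b + 5)] with k hk
    omega
  have h0 : Tendsto (fun k : ℕ => (1 : ℝ) / 2 ^ ((k - 5) / 2)) atTop (𝓝 0) := by
    have := (tendsto_pow_atTop_nhds_zero_of_lt_one (r := (1 / 2 : ℝ)) (by norm_num)
      (by norm_num)).comp hj
    refine this.congr fun k => ?_
    simp
  have hl : Tendsto (fun k : ℕ => (1 : ℝ) / 2 - 1 / 2 ^ ((k - 5) / 2)) atTop (𝓝 (1 / 2)) := by
    have := h0.const_sub (1 / 2)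
    rwa [sub_zero] at this
  have hu : Tendsto (fun k : ℕ => (1 : ℝ) / 2 + 2 / 2 ^ ((k - 5) / 2)) atTop (𝓝 (1 / 2)) := by
    have := (h0.const_mul 2).const_add (1 / 2)
    simp only [mul_zero, add_zero] at this
    refine this.congr fun k => ?_
    ring
  have hb : ∀ᶠ k : ℕ in atTop, 1 / 2 - 1 / 2 ^ ((k - 5) / 2) ≤ lowerG int k ∧
      lowerG int k ≤ upperG int k ∧ upperG int k ≤ 1 / 2 + 2 / 2 ^ ((k - 5) / 2) := by
    filter_upwards [eventually_ge_atTop 5] with k hk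
    exact bounds int k _ (by omega)
  constructor
  · exact tendsto_of_tendsto_of_tendsto_of_le_of_le' hl hu (hb.mono fun k h => h.1)
      (hb.mono fun k h => h.2.1.trans h.2.2)
  · exact tendsto_of_tendsto_of_tendsto_of_le_of_le' hl hu (hb.mono fun k h => h.1.trans h.2.1)
      (hb.mono fun k h => h.2.2)

end Pool.Agent.Results.MP_af7016_co.Half
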